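import Pool.Agent.H46.VT.Tools

/-!
# Module BK2: induction step of the splitting
-/

namespace Pool.Agent.H17.VT

open _root_.VT Pool.Agent.H46.VT
open Nat.Partrec (Code)
open Nat.Partrec.Code Encodable Denumerable

theorem cp_fin_forall {α : Type} [Primcodable α] {P : ℕ → α → Prop}
    (h : ∀ j, ComputablePred (P j)) (n : ℕ) : ComputablePred (fun a => ∀ j < n, P j a) := by
  induction n with
  | zero => exact (cp_const True).of_eq fun a => by simp
  | succ n ih =>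
    refine (cp_and ih (h n)).of_eq fun a => ?_
    constructor
    · rintro ⟨h1, h2⟩ j hj
      rcases Nat.lt_succ_iff_lt_or_eq.1 hj with h3 | h3
      · exact h1 j h3
      · rw [h3]; exact h2
    · intro h1
      exact ⟨fun j hj => h1 j (by omega), h1 n (by omega)⟩

section

variable {cU cC : Code} {E : ℕ → List ℕ} {p : ℕ → ℕ} {a : ℕ → ℕ → ℕ} {A U : Set ℕ} {i : ℕ}

theorem cp_Xs {β : Type} [Primcodable β] (i : ℕ) {t x : β → ℕ} (ht : Computable t)
    (hx : Computable x) : ComputablePred (fun b => Xs i (t b) (x b)) :=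
  cp_or (cp_and (cp_wst (Computable.const _) ht hx) (cp_not (cp_wst (Computable.const _) ht hx)))
    (cp_wst (Computable.const _) ht hx)

theorem cp_psi {β : Type} [Primcodable β] (hE : Computable E) (ha : Computable₂ a) (i : ℕ)
    {y t : β → ℕ} (hy : Computable y) (ht : Computable t) :
    ComputablePred (fun b => psi cU cC E a i (y b) (t b)) := by
  have hw : ∀ c : Code, ComputablePred (fun b => Wst c (t b) (y b)) :=
    fun c => cp_wst (Computable.const c) ht hy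
  have hX := cp_Xs i ht hy
  refine cp_and (cp_iff (hw _) (cp_not (hw _))) (cp_imp (hw _) (cp_and
    (cp_imp (hw _) (cp_imp (cp_not (hw _)) hX)) (cp_imp ?_ (cp_iff hX (cp_not ?_)))))
  · exact cp_eq (ha.comp ht hy) (Computable.const _)
  · exact cp_mem (hE.comp ht) hy

theorem cp_BBig (hE : Computable E) (ha : Computable₂ a) (i : ℕ) :
    ComputablePred (fun q : ℕ × ℕ => BBig cU cC E a i q.1 q.2) := by
  refine cp_exists_le (p := fun (q : ℕ × ℕ) t => q.2 < t ∧ ∀ y ≤ q.2, psi cU cC E a i y t) ?_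
    Computable.fst
  refine cp_and (cp_lt (Computable.snd.comp Computable.fst) Computable.snd) ?_
  refine cp_forall_le (p := fun (q : (ℕ × ℕ) × ℕ) y => psi cU cC E a i y q.2) ?_
    (Computable.snd.comp Computable.fst)
  exact cp_psi hE ha i Computable.snd (Computable.snd.comp Computable.fst)

theorem cp_Tp (hE : Computable E) (ha : Computable₂ a) (i : ℕ) :
    ComputablePred (fun q : ℕ × ℕ => Tp cU cC E a i q.1 q.2) := by
  refine cp_exists_le (p := fun (q : ℕ × ℕ) t => Wst cU t q.2 ∧ ¬ Wst cC t q.2 ∧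
    Wst (bv i) t q.2 ∧ Xs i t q.2 ∧ BBig cU cC E a i t q.2) ?_ Computable.fst
  have hx : Computable (fun q : (ℕ × ℕ) × ℕ => q.1.2) := Computable.snd.comp Computable.fst
  have ht : Computable (fun q : (ℕ × ℕ) × ℕ => q.2) := Computable.snd
  have hw : ∀ c : Code, ComputablePred (fun q : (ℕ × ℕ) × ℕ => Wst c q.2 q.1.2) :=
    fun c => cp_wst (Computable.const c) ht hx
  refine cp_and (hw _) (cp_and (cp_not (hw _)) (cp_and (hw _) (cp_and (cp_Xs i ht hx) ?_)))
  exact cp_comp (p := fun q : ℕ × ℕ => BBig cU cC E a i q.1 q.2)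
    (f := fun q : (ℕ × ℕ) × ℕ => (q.2, q.1.2)) (cp_BBig hE ha i) (ht.pair hx)

theorem cov_mono {S S' : Set ℕ} (h : Cov A U E p S') (hs : S ⊆ S') : Cov A U E p S := by
  obtain ⟨pl, h1, h2⟩ := h
  exact ⟨pl, h1, fun x hx => h2 x (hs hx)⟩

theorem cov_union {S S' : Set ℕ} (h : Cov A U E p S) (h' : Cov A U E p S') :
    Cov A U E p (S ∪ S') := by
  obtain ⟨pl, h1, h2⟩ := h
  obtain ⟨pl', h1', h2'⟩ := h'
  refine ⟨pl ++ pl', fun q hq => ?_, fun x hx => ?_⟩
  · rcases List.mem_append.1 hq with h | h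
    · exact h1 q h
    · exact h1' q h
  · rcases hx with hx | hx
    · obtain ⟨q, hq, h⟩ := h2 x hx
      exact ⟨q, List.mem_append_left _ hq, h⟩
    · obtain ⟨q, hq, h⟩ := h2' x hx
      exact ⟨q, List.mem_append_right _ hq, h⟩

theorem cov_single {q : Code × Code} (h : Good A U E p q) : Cov A U E p (W q.1 \ W q.2) :=
  ⟨[q], fun r hr => by rw [List.mem_singleton.1 hr]; exact h,
    fun x hx => ⟨q, List.mem_singleton.2 rfl, hx⟩⟩

theorem cov_empty : Cov A U E p ∅ :=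
  ⟨[], fun _ hq => absurd hq List.not_mem_nil, fun _ hx => hx.elim⟩

theorem cov_fin (n : ℕ) {S : ℕ → Set ℕ} (h : ∀ j < n, Cov A U E p (S j)) :
    Cov A U E p {x | ∃ j < n, x ∈ S j} := by
  induction n with
  | zero => exact cov_mono cov_empty fun x hx => by obtain ⟨j, hj, -⟩ := hx; omega
  | succ n ih =>
    refine cov_mono (cov_union (ih fun j hj => h j (by omega)) (h n (by omega))) ?_
    rintro x ⟨j, hj, hx⟩
    rcases Nat.lt_succ_iff_lt_or_eq.1 hj with h3 | h3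
    · exact Or.inl ⟨j, h3, hx⟩
    · rw [h3] at hx; exact Or.inr hx

theorem cov_ce (hA : IsEnum A E) {Z : Set ℕ} (hZ : CE Z) (hZA : Z ∩ A = ∅) (hZU : Z ⊆ U) :
    Cov A U E p Z := by
  obtain ⟨c, rfl⟩ := ce_iff_code.1 hZ
  obtain ⟨d, hd⟩ := ce_iff_code.1 ce_empty
  have hnA : ∀ x ∈ W c, x ∉ A := fun x hx hxA => by
    have : x ∈ W c ∩ A := ⟨hx, hxA⟩
    rw [hZA] at this
    exact this
  refine cov_mono (cov_single (q := (c, d)) ⟨?_, hZU, ?_⟩) ?_
  · rintro x ⟨hx, -⟩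
    exact hnA x hx
  · intro s x hs _ hxE
    exact hnA x ⟨s, hs⟩ ((hA.mem x).2 ⟨_, hxE⟩)
  · intro x hx
    refine ⟨hx, ?_⟩
    show x ∉ W d
    rw [← hd]
    exact fun h => h

/-- stabilisation -/
theorem wst_lim (c : Code) (x : ℕ) : ∃ t0, ∀ t ≥ t0, (Wst c t x ↔ x ∈ W c) := by
  by_cases h : x ∈ W c
  · obtain ⟨s, hs⟩ := h
    exact ⟨s, fun t ht => ⟨fun h => ⟨t, h⟩, fun _ => wst_mono ht hs⟩⟩
  · exact ⟨0, fun t _ => ⟨fun h' => ⟨t, h'⟩, fun h' => absurd h' h⟩⟩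

theorem Xs_lim (i x : ℕ) : ∃ t0, ∀ t ≥ t0, (Xs i t x ↔ x ∈ XS i) := by
  obtain ⟨t1, h1⟩ := wst_lim (bP i) x
  obtain ⟨t2, h2⟩ := wst_lim (be i) x
  obtain ⟨t3, h3⟩ := wst_lim (bZ i) x
  refine ⟨max t1 (max t2 t3), fun t ht => ?_⟩
  unfold Xs XS
  rw [h1 t (le_trans (le_max_left _ _) ht),
    h2 t (le_trans (le_trans (le_max_left _ _) (le_max_right _ _)) ht),
    h3 t (le_trans (le_trans (le_max_right _ _) (le_max_right _ _)) ht)]
  rfl

theorem psi_lim (hA : IsEnum A E) (hH : HYP cU cC a A i) (y : ℕ) :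
    ∃ t0, ∀ t ≥ t0, psi cU cC E a i y t := by
  obtain ⟨t1, h1⟩ := wst_lim (bv i) y
  obtain ⟨t2, h2⟩ := wst_lim (bv' i) y
  obtain ⟨t3, h3⟩ := wst_lim cU y
  obtain ⟨t4, h4⟩ := wst_lim cC y
  obtain ⟨t5, h5⟩ := Xs_lim i y
  obtain ⟨t6, h6⟩ : ∃ t0, ∀ t ≥ t0, (y ∈ E t ↔ y ∈ A) := by
    by_cases h : y ∈ A
    · obtain ⟨s, hs⟩ := (hA.mem y).1 h
      exact ⟨s, fun t ht => ⟨fun _ => h, fun _ => hA.mono _ _ _ ht hs⟩⟩
    · exact ⟨0, fun t _ => ⟨fun h' => (hA.mem y).2 ⟨t, h'⟩, fun h' => absurd h' h⟩⟩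
  obtain ⟨hv, hU, hS⟩ := hH
  refine ⟨t1 + t2 + t3 + t4 + t5 + t6, fun t ht => ?_⟩
  have e1 := h1 t (by omega)
  have e2 := h2 t (by omega)
  have e3 := h3 t (by omega)
  have e4 := h4 t (by omega)
  have e5 := h5 t (by omega)
  have e6 := h6 t (by omega)
  have e7 : y ∈ W (bv' i) ↔ y ∉ W (bv i) := by rw [← hv]; rfl
  refine ⟨?_, fun hb => ⟨fun hu hc => ?_, fun ha => ?_⟩⟩
  · rw [e1, e2, e7]
    exact not_not.symm
  · exact e5.2 (hU y (e3.1 hu) (e1.1 hb) fun h => hc (e4.2 h))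
  · rw [e5, e6]
    exact hS y (e1.1 hb) ⟨t, ha⟩

theorem BBig_lim (hA : IsEnum A E) (hH : HYP cU cC a A i) (x : ℕ) :
    ∃ t0, ∀ t ≥ t0, BBig cU cC E a i t x := by
  have h1 : ∀ n, ∃ t0, ∀ t ≥ t0, ∀ y < n, psi cU cC E a i y t := by
    intro n
    induction n with
    | zero => exact ⟨0, fun t _ y hy => by omega⟩
    | succ n ih =>
      obtain ⟨t1, h1⟩ := ih
      obtain ⟨t2, h2⟩ := psi_lim hA hH n
      refine ⟨max t1 t2, fun t ht y hy => ?_⟩
      rcases Nat.lt_succ_iff_lt_or_eq.1 hy with h3 | h3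
      · exact h1 t (le_trans (le_max_left _ _) ht) y h3
      · rw [h3]; exact h2 t (le_trans (le_max_right _ _) ht)
  obtain ⟨t0, h0⟩ := h1 (x + 1)
  refine ⟨max t0 (x + 1), fun t ht => ⟨max t0 (x + 1), ht, by omega, fun y hy => ?_⟩⟩
  exact h0 _ (le_max_left _ _) y (by omega)

theorem enter (x : ℕ) (hx : x ∈ W cC) : ∃ s, ¬ Wst cC s x ∧ Wst cC (s + 1) x := by
  classical
  have hx' : ∃ s, Wst cC s x := hx
  have h1 := Nat.find_spec hx'
  have h2 : Nat.find hx' ≠ 0 := by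
    intro h0
    rw [h0] at h1
    exact not_wst_zero h1
  obtain ⟨s, hs⟩ := Nat.exists_eq_succ_of_ne_zero h2
  refine ⟨s, Nat.find_min hx' (by omega), ?_⟩
  rw [hs] at h1
  exact h1

end

theorem pf_BK2 : TARGET_BK2 := by
  classical
  intro cU cC E p a A hA hp ha hrun hAC hCU hWM i hH hNW hJ
  -- the finite set
  let F : Set ℕ := {x | x ≤ i} ∪ ⋃ i' ∈ Finset.range i, if (Asg cU cC E p a i').Infinite then ∅
    else Asg cU cC E p a i'
  have hF : F.Finite := by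
    refine (Set.finite_le_nat i).union (Set.Finite.biUnion (Finset.finite_toSet _) fun j _ => ?_)
    by_cases h : (Asg cU cC E p a j).Infinite
    · rw [if_pos h]; exact Set.finite_empty
    · rw [if_neg h]; exact Set.not_infinite.1 h
  have hFA : ∀ x, x ∉ F → ∀ j < i, x ∈ Asg cU cC E p a j → (Asg cU cC E p a j).Infinite := by
    intro x hx j hj hxj
    by_contra hn
    apply hx
    refine Or.inr ?_
    simp only [Set.mem_iUnion]
    refine ⟨j, Finset.mem_range.2 hj, ?_⟩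
    rw [if_neg hn]
    exact hxj
  -- the set `T'`
  let T' : Set ℕ := {x | ∃ s, Tp cU cC E a i s x}
  have hT'ce : CE T' := ce_of_exists (P := fun s x => Tp cU cC E a i s x) (cp_Tp hA.comp ha i)
  have hT'U : ∀ x ∈ T', x ∈ W cU ∧ x ∈ W (bv i) := by
    rintro x ⟨s, t, -, h1, -, h2, -⟩
    exact ⟨⟨t, h1⟩, ⟨t, h2⟩⟩
  obtain ⟨hv, hHU, hHS⟩ := id hH
  have hT'big : W cU \ W cC ⊆ T' ∪ W (bv' i) := by
    rintro x ⟨hxU, hxC⟩
    by_cases hxv : x ∈ W (bv i)
    · left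
      obtain ⟨t1, h1⟩ := wst_lim cU x
      obtain ⟨t2, h2⟩ := wst_lim (bv i) x
      obtain ⟨t3, h3⟩ := Xs_lim i x
      obtain ⟨t4, h4⟩ := BBig_lim hA hH x
      refine ⟨t1 + t2 + t3 + t4, t1 + t2 + t3 + t4, le_rfl, (h1 _ (by omega)).2 hxU,
        fun h => hxC ⟨_, h⟩, (h2 _ (by omega)).2 hxv, (h3 _ (by omega)).2 (hHU x hxU hxv hxC),
        h4 _ (by omega)⟩
    · right
      rw [← hv]
      exact hxv
  obtain ⟨Z', hZ'ce, hZ'A, hZ'⟩ := hWM _ (ce_union hT'ce (ce_W (bv' i))) hT'big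
  -- the elements of `C ∩ T'` go to the piece
  have hpiece : ∀ x ∈ T', x ∈ W cC → x ∉ F →
      (∀ j < i, (Asg cU cC E p a j).Infinite → x ∉ W (bv j)) → x ∈ Sp a (bn i) := by
    intro x hxT hxC hxF hxV
    obtain ⟨s, hs1, hs2⟩ := enter x hxC
    obtain ⟨s', t, ht, h1, h2, h3⟩ := hxT
    have hts : t ≤ s := by
      by_contra hc
      exact h2 (wst_mono (by omega) hs2)
    have hTp : Tp cU cC E a i s x := ⟨t, hts, h1, h2, h3⟩
    have hwon : ¬ won E p a i s := by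
      rintro ⟨t', -, x', -, ha', hb', hX', hE'⟩
      exact hNW x' ⟨s, hb'⟩ ⟨s, ha'⟩ t' hX' hE'
    have hix : i < x := by
      by_contra hc
      exact hxF (Or.inl (not_lt.1 hc))
    have hex : ∃ j, j < x ∧ bcond cU cC E p a j s x := ⟨i, hix, hTp, hwon⟩
    have hfi : Nat.find hex = i := by
      have hle : Nat.find hex ≤ i := Nat.find_min' hex ⟨hix, hTp, hwon⟩
      rcases hle.lt_or_eq with hlt | heq
      · exfalso
        have hsp := Nat.find_spec hex
        have hmem : x ∈ Asg cU cC E p a (Nat.find hex) :=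
          ⟨s, hs1, hs2, hsp.1, hsp.2, fun j hj hb => Nat.find_min hex hj ⟨by omega, hb⟩⟩
        have hinf := hFA x hxF _ hlt hmem
        obtain ⟨⟨t'', -, -, -, hb, -⟩, -⟩ := hsp.2
        exact hxV _ hlt hinf ⟨t'', hb⟩
      · exact heq
    refine ⟨s + 1, ?_⟩
    rw [hrun.2 s x, if_neg hs1, if_pos hs2]
    unfold bpick
    rw [dif_pos hex, hfi]
  -- slow indices
  have hslow : ∀ c : Code, ∃ c' : Code, (∀ x, x ∈ W c' ↔ x ∈ W c ∧ x ∈ T' ∧ x ∉ F ∧
      ∀ j < i, (Asg cU cC E p a j).Infinite → x ∉ W (bv j)) ∧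
      ∀ s x, Wst c' s x → Wst c s x := by
    intro c
    have hcp : ComputablePred (fun q : ℕ × ℕ => Wst c q.1 q.2 ∧ Tp cU cC E a i q.1 q.2 ∧
        (¬ q.2 ∈ hF.toFinset.toList) ∧
        ∀ j < i, ((Asg cU cC E p a j).Infinite → Wst (bv' j) q.1 q.2)) := by
      refine cp_and (cp_wst (Computable.const c) Computable.fst Computable.snd)
        (cp_and (cp_Tp hA.comp ha i) (cp_and
          (cp_not (cp_mem (Computable.const _) Computable.snd)) ?_))
      refine cp_fin_forall (P := fun j (q : ℕ × ℕ) =>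
        (Asg cU cC E p a j).Infinite → Wst (bv' j) q.1 q.2) (fun j => ?_) i
      exact cp_imp (cp_const _) (cp_wst (Computable.const _) Computable.fst Computable.snd)
    obtain ⟨c', h1, h2⟩ := exists_slow (P := fun s x => Wst c s x ∧ Tp cU cC E a i s x ∧
        (¬ x ∈ hF.toFinset.toList) ∧
        ∀ j < i, ((Asg cU cC E p a j).Infinite → Wst (bv' j) s x)) hcp
    have hmemF : ∀ x, x ∈ hF.toFinset.toList ↔ x ∈ F := fun x => by simp
    refine ⟨c', fun x => ?_, fun s x hs => ?_⟩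
    · rw [h1]
      constructor
      · rintro ⟨s, hs1, hs2, hs3, hs4⟩
        refine ⟨⟨s, hs1⟩, ⟨s, hs2⟩, fun h => hs3 ((hmemF x).2 h), fun j hj hinf hb => ?_⟩
        have h5 : x ∈ W (bv' j) := ⟨s, hs4 j hj hinf⟩
        rw [← (hJ j hj hinf).1] at h5
        exact h5 hb
      · rintro ⟨⟨s1, hs1⟩, ⟨s2, t2, ht2, hs2⟩, hs3, hs4⟩
        have h5 : ∀ n ≤ i, ∃ s, ∀ j < n, ((Asg cU cC E p a j).Infinite → Wst (bv' j) s x) := by
          intro n
          induction n with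
          | zero => exact fun _ => ⟨0, fun j hj => by omega⟩
          | succ n ih =>
            intro hn
            obtain ⟨s, hs⟩ := ih (by omega)
            by_cases hinf : (Asg cU cC E p a n).Infinite
            · have h6 : x ∈ W (bv' n) := by
                rw [← (hJ n (by omega) hinf).1]
                exact hs4 n (by omega) hinf
              obtain ⟨s', hs'⟩ := h6
              refine ⟨max s s', fun j hj hinf' => ?_⟩
              rcases Nat.lt_succ_iff_lt_or_eq.1 hj with h3 | h3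
              · exact wst_mono (le_max_left _ _) (hs j h3 hinf')
              · rw [h3]; exact wst_mono (le_max_right _ _) hs'
            · refine ⟨s, fun j hj hinf' => ?_⟩
              rcases Nat.lt_succ_iff_lt_or_eq.1 hj with h3 | h3
              · exact hs j h3 hinf'
              · rw [h3] at hinf'; exact absurd hinf' hinf
        obtain ⟨s3, hs5⟩ := h5 i le_rfl
        refine ⟨s1 + s2 + s3, wst_mono (by omega) hs1, ⟨t2, by omega, hs2⟩,
          fun h => hs3 ((hmemF x).1 h), fun j hj hinf => wst_mono (by omega) (hs5 j hj hinf)⟩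
    · obtain ⟨t, ht, hPt⟩ := h2 s x hs
      exact wst_mono ht.le hPt.1
  obtain ⟨P1, hP1, hP1s⟩ := hslow (bP i)
  obtain ⟨Z1, hZ1, hZ1s⟩ := hslow (bZ i)
  obtain ⟨d, hd⟩ := ce_iff_code.1 ce_empty
  -- facts about the elements
  have hgoodA : ∀ x ∈ T', x ∉ F → (∀ j < i, (Asg cU cC E p a j).Infinite → x ∉ W (bv j)) →
      x ∈ XS i → x ∉ A := by
    intro x hxT hxF hxV hXS hxA
    have hxC := hAC hxA
    exact (hHS x (hT'U x hxT).2 (hpiece x hxT hxC hxF hxV)).1 hXS hxA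
  have hgoodE : ∀ x ∈ T', x ∉ F → (∀ j < i, (Asg cU cC E p a j).Infinite → x ∉ W (bv j)) →
      ∀ s, Xs i s x → x ∉ E (p s) := by
    intro x hxT hxF hxV s hXs hxE
    have hxA := (hA.mem x).2 ⟨_, hxE⟩
    exact hNW x (hT'U x hxT).2 (hpiece x hxT (hAC hxA) hxF hxV) s hXs hxE
  -- the two good pairs
  have hG1 : Good A (W cU) E p (P1, be i) := by
    refine ⟨?_, fun x hx => (hT'U x ((hP1 x).1 hx).2.1).1, fun s x h1 h2 => ?_⟩
    · rintro x ⟨hx1, hx2⟩
      obtain ⟨h1, h2, h3, h4⟩ := (hP1 x).1 hx1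
      exact hgoodA x h2 h3 h4 (Or.inl ⟨h1, hx2⟩)
    · obtain ⟨h5, h6, h3, h4⟩ := (hP1 x).1 ⟨s, h1⟩
      exact hgoodE x h6 h3 h4 s (Or.inl ⟨hP1s s x h1, h2⟩)
  have hG2 : Good A (W cU) E p (Z1, d) := by
    refine ⟨?_, fun x hx => (hT'U x ((hZ1 x).1 hx).2.1).1, fun s x h1 h2 => ?_⟩
    · rintro x ⟨hx1, hx2⟩
      obtain ⟨h1, h2, h3, h4⟩ := (hZ1 x).1 hx1
      exact hgoodA x h2 h3 h4 (Or.inr h1)
    · obtain ⟨h5, h6, h3, h4⟩ := (hZ1 x).1 ⟨s, h1⟩
      exact hgoodE x h6 h3 h4 s (Or.inr (hZ1s s x h1))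
  -- the cover
  have hC1 : Cov A (W cU) E p {x | ∃ j < i, x ∈ (if (Asg cU cC E p a j).Infinite then
      (W cU ∩ W (bv j)) \ A else ∅ : Set ℕ)} := by
    refine cov_fin i (S := fun j => (if (Asg cU cC E p a j).Infinite then
      (W cU ∩ W (bv j)) \ A else ∅ : Set ℕ)) fun j hj => ?_
    by_cases h : (Asg cU cC E p a j).Infinite
    · rw [if_pos h]; exact (hJ j hj h).2
    · rw [if_neg h]; exact cov_empty
  have hC2 : Cov A (W cU) E p ((F ∩ W cU) \ A) := by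
    refine cov_ce hA (ce_finite (hF.subset fun x hx => hx.1.1)) ?_ fun x hx => hx.1.2
    ext x
    simp only [Set.mem_inter_iff, Set.mem_empty_iff_false, iff_false]
    rintro ⟨h1, h2⟩
    exact h1.2 h2
  have hC3 : Cov A (W cU) E p (Z' ∩ W cU) := by
    refine cov_ce hA (ce_inter hZ'ce (ce_W cU)) ?_ fun x hx => hx.2
    ext x
    simp only [Set.mem_inter_iff, Set.mem_empty_iff_false, iff_false]
    rintro ⟨h1, h2⟩
    have : x ∈ Z' ∩ A := ⟨h1.1, h2⟩
    rw [hZ'A] at this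
    exact this
  refine cov_mono (cov_union (cov_union (cov_union (cov_union hC1 hC2) hC3)
    (cov_single hG1)) (cov_single hG2)) ?_
  rintro x ⟨⟨hxU, hxv⟩, hxA⟩
  by_cases hV : ∃ j < i, (Asg cU cC E p a j).Infinite ∧ x ∈ W (bv j)
  · obtain ⟨j, hj, hinf, hxj⟩ := hV
    refine Or.inl (Or.inl (Or.inl (Or.inl ⟨j, hj, ?_⟩)))
    rw [if_pos hinf]
    exact ⟨⟨hxU, hxj⟩, hxA⟩
  · have hV' : ∀ j < i, (Asg cU cC E p a j).Infinite → x ∉ W (bv j) :=
      fun j hj hinf hxj => hV ⟨j, hj, hinf, hxj⟩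
    by_cases hxF : x ∈ F
    · exact Or.inl (Or.inl (Or.inl (Or.inr ⟨⟨hxF, hxU⟩, hxA⟩)))
    · rcases hZ' ⟨hxU, hxA⟩ with (hxT | hxv') | hxZ
      · have hXS : x ∈ XS i := by
          by_cases hxC : x ∈ W cC
          · exact (hHS x hxv (hpiece x hxT hxC hxF hV')).2 hxA
          · exact hHU x hxU hxv hxC
        rcases hXS with ⟨h1, h2⟩ | h1
        · exact Or.inl (Or.inr ⟨(hP1 x).2 ⟨h1, hxT, hxF, hV'⟩, h2⟩)
        · refine Or.inr ⟨(hZ1 x).2 ⟨h1, hxT, hxF, hV'⟩, ?_⟩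
          show x ∉ W d
          rw [← hd]
          exact fun h => h
      · exfalso
        rw [← hv] at hxv'
        exact hxv' hxv
      · exact Or.inl (Or.inl (Or.inr ⟨hxZ, hxU⟩))

end Pool.Agent.H17.VT
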