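import Pool.Agent.H46.VT.Red

/-!
# Module TU: true guesses
-/

namespace Pool.Agent.H17.VT

open _root_.VT
open Nat.Partrec (Code)

theorem pf_TU (hRA : TARGET_RA) (hLF : TARGET_LF) (hFE : TARGET_FE) (hCD : TARGET_CD) :
    TARGET_TU := by
  classical
  intro ph hrun k
  obtain ⟨hp4, -, hCm, -, -, -, hmv, -, -, hBig, hFrz, -, -⟩ := hRA ph hrun
  obtain ⟨-, htv, -, -⟩ := hLF ph hrun
  obtain ⟨hg, -, hfin, -⟩ := hCD
  -- the exceptional set
  let F1 : Set ℕ := ⋃ k' ∈ Finset.range (k + 1), if Inf ph k' then ∅ else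
    {x | k' < LX x ∧ gX x k' ≠ tv ph k' ∧ ∃ s, ph s x ≠ (0, LX x + 4)}
  have hF1 : F1.Finite := by
    refine Set.Finite.biUnion (Finset.finite_toSet _) fun k' _ => ?_
    by_cases h : Inf ph k'
    · rw [if_pos h]; exact Set.finite_empty
    · rw [if_neg h]; exact hFE ph hrun k' h
  refine (hF1.union (hfin (tv ph) k)).subset ?_
  rintro x ⟨⟨s, hUs, hCs, hB⟩, ⟨t, hCt⟩, hlk, hnt⟩
  by_contra hx
  rw [Set.mem_union, not_or] at hx
  obtain ⟨hx1, hx2⟩ := hx
  apply hnt
  -- x has moved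
  have hmoved : ph t x ≠ (0, LX x + 4) := by
    intro he
    unfold Cin at hCt
    rw [he] at hCt
    have : mX x ≤ LX x := by unfold LX; omega
    simp only at hCt
    omega
  have hnfr : ¬ Frz ph s x := by
    intro hf
    rcases le_total s t with hst | hst
    · have he := (hFrz s t x hst hf).1
      apply hCs
      unfold Cin at hCt ⊢
      rwa [he] at hCt
    · exact hCs (hCm _ _ _ _ hst hCt)
  -- position of the pointer
  have hrr : ∀ k' ≤ k, k' < LX x → k' < rr x (ph s x).2 := by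
    intro k' hk' hkL
    have h4 := hp4 s x
    have hmL : mX x ≤ LX x := by unfold LX; omega
    unfold rr
    by_cases hl : rl k = 0
    · have h5 := hlk hl
      have h6 : ¬ (ph s x).2 ≤ mX x + 1 := fun h => hCs (Or.inl ⟨hl, h⟩)
      split_ifs <;> omega
    · have h7 : ¬ (rl k ≠ 0 ∧ mX x = lm (rl k) ∧ (li (rl k) < (ph s x).1 ∨
          ((ph s x).1 = li (rl k) ∧ (ph s x).2 ≤ LX x + 3) ∨ (ph s x).2 = 0)) :=
        fun h => hCs (Or.inr h)
      rcases hUs with h | ⟨-, h8, h9⟩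
      · exact absurd h hl
      · have h10 : ¬ (li (rl k) < (ph s x).1 ∨
          ((ph s x).1 = li (rl k) ∧ (ph s x).2 ≤ LX x + 3) ∨ (ph s x).2 = 0) :=
          fun h => h7 ⟨hl, h8, h⟩
        have h11 : (ph s x).2 = LX x + 4 := by omega
        split_ifs <;> omega
  have hgood : ∀ k' ≤ k, k' < LX x → gX x k' = tv ph k' := by
    intro k' hk' hkL
    by_cases hI : Inf ph k'
    · rw [(htv k').2 hI]
      by_contra hne
      apply hnfr
      refine ⟨k', hkL, hrr k' hk' hkL, hne, ?_⟩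
      exact hBig k' s s x _ le_rfl ((Nat.sub_le _ _).trans (hg x k')) (hB k' hk' hI)
    · by_contra hne
      apply hx1
      simp only [F1, Set.mem_iUnion]
      refine ⟨k', Finset.mem_range.2 (by omega), ?_⟩
      rw [if_neg hI]
      exact ⟨hkL, hne, t, hmoved⟩
  by_cases hkL : k < LX x
  · exact ⟨hkL, fun k' hk' => hgood k' hk' (by omega)⟩
  · exfalso
    apply hx2
    exact ⟨not_lt.1 hkL, (hmv t x hmoved).1, fun k' hk' => hgood k' (by omega) hk'⟩

end Pool.Agent.H17.VT
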